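import Pool.Agent.Lib.MP_d283d5_gt.Final

/-!
# A hyperbolic 3-manifold with infinitely many Dehn fillings of one volume

There is a complete orientable hyperbolic 3-manifold `M` of finite volume with
infinitely many tuples of slopes (one slope on each cusp of `M`) whose Dehn fillings are hyperbolic
with one and the same volume.

A complete orientable hyperbolic 3-manifold is `ℍ³/Γ`, where `Γ` is a discrete
torsion-free group of orientation-preserving isometries of hyperbolic space, here in the
hyperboloid model. All notions below are expressed with `Γ`, the fundamental group.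
-/

open MeasureTheory

namespace Pool.Agent.Results.MP_d283d5_gt.InfinitelyManyFillings

/-- the space `ℝ⁴` -/
abbrev E4 : Type := Fin 4 → ℝ

/-- the group of invertible linear maps of `ℝ⁴` -/
abbrev Lin : Type := E4 ≃ₗ[ℝ] E4

/-- the Lorentz form on `ℝ⁴` -/
def lor (x y : E4) : ℝ := -(x 0 * y 0) + x 1 * y 1 + x 2 * y 2 + x 3 * y 3

/-- hyperbolic 3-space (hyperboloid model) -/
def Hyp : Set E4 := {x | lor x x = -1 ∧ 0 < x 0}

/-- `g` is an orientation-preserving isometry of `ℍ³`: it preserves the Lorentz form and the sheet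
`ℍ³` of the hyperboloid, and has determinant `1` -/
def IsIsometry (g : Lin) : Prop :=
  (∀ x y : E4, lor (g x) (g y) = lor x y) ∧ (∀ x ∈ Hyp, g x ∈ Hyp) ∧ LinearEquiv.det g = 1

/-- `Γ` acts properly discontinuously on `ℍ³`: only finitely many `g ∈ Γ` map a given point into
a given ball -/
def IsDiscrete (Γ : Subgroup Lin) : Prop :=
  ∀ x ∈ Hyp, ∀ R : ℝ, {g : Lin | g ∈ Γ ∧ (g x) 0 ≤ R}.Finite

/-- the group `G` has no torsion -/
def IsTorsionFree (G : Type) [Group G] : Prop :=
  ∀ g : G, ∀ n : ℕ, 0 < n → g ^ n = 1 → g = 1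

/-- `Γ` is a discrete torsion-free group of orientation-preserving isometries of `ℍ³`, so that
`ℍ³/Γ` is a complete orientable hyperbolic 3-manifold -/
def IsHyperbolicGroup (Γ : Subgroup Lin) : Prop :=
  (∀ g ∈ Γ, IsIsometry g) ∧ IsDiscrete Γ ∧ IsTorsionFree Γ

/-- The hyperbolic volume of a set `A ⊆ ℍ³`: four times the Lebesgue measure of the cone
`{t x : 0 < t ≤ 1, x ∈ A}` (in coordinates `y = t x`, `x ∈ ℍ³`, the Lebesgue measure
is `t³ dt dvol(x)`). -/
noncomputable def hvol (A : Set E4) : ENNReal :=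
  4 * volume {y : E4 | ∃ t : ℝ, 0 < t ∧ t ≤ 1 ∧ ∃ x ∈ A, y = t • x}

/-- `ℍ³/Γ` has finite volume `v`: there is a measurable `A ⊆ ℍ³` of volume `v` whose translates
under `Γ` cover `ℍ³` and overlap in sets of volume `0` only. -/
def HasVolume (Γ : Subgroup Lin) (v : ℝ) : Prop :=
  ∃ A : Set E4, A ⊆ Hyp ∧ MeasurableSet A ∧ (∀ x ∈ Hyp, ∃ g ∈ Γ, g x ∈ A) ∧
    (∀ g ∈ Γ, g ≠ 1 → hvol (A ∩ g '' A) = 0) ∧ hvol A = ENNReal.ofReal v

/-- `ℍ³/Γ` is compact -/
def IsCocompact (Γ : Subgroup Lin) : Prop :=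
  ∃ R : ℝ, ∀ x ∈ Hyp, ∃ g ∈ Γ, (g x) 0 ≤ R

/-- parabolic isometries of `ℍ³`: the unipotent maps different from `1`, that is, the
`g ≠ 1` with `(g - 1)³ = 0` -/
def IsParabolic (g : Lin) : Prop :=
  g ≠ 1 ∧ ∀ x : E4, g (g (g x)) - (3 : ℝ) • g (g x) + (3 : ℝ) • g x - x = 0

/-- `S` is a choice of slopes in the group `G`, when `P` is the set of the parabolic elements of
`G`: see `IsSlopeSystem`. -/
structure IsSlopeSet {G : Type} [Group G] (P S : Set G) : Prop where
  parabolic : ∀ σ ∈ S, σ ∈ P
  primitive : ∀ σ ∈ S, ∀ δ : G, ∀ n : ℕ, δ ^ n = σ → n = 1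
  inv : ∀ σ ∈ S, σ⁻¹ ∈ S
  conj : ∀ σ ∈ S, ∀ g : G, g * σ * g⁻¹ ∈ S
  exists_slope : ∀ γ ∈ P, ∃ σ ∈ S, σ * γ = γ * σ
  unique_slope : ∀ σ ∈ S, ∀ τ ∈ S, σ * τ = τ * σ → τ = σ ∨ τ = σ⁻¹

/-- A choice of one slope on each cusp of `ℍ³/Γ`.

The cusps of `ℍ³/Γ` correspond to the conjugacy classes of the maximal
parabolic subgroups of `Γ` (each is a `ℤ²`, the fundamental group of the cusp torus). Two
parabolic elements lie in the same maximal parabolic subgroup iff they commute. A slope on
the cusp torus is a primitive element of this `ℤ²` up to inversion. So a tuple of slopes is the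
same as a set `S` of primitive parabolic elements of `Γ`, closed under inversion and
conjugation, that contains exactly one pair `σ, σ⁻¹` in each maximal parabolic subgroup. -/
def IsSlopeSystem (Γ : Subgroup Lin) (S : Set Γ) : Prop :=
  IsSlopeSet {γ : Γ | IsParabolic (γ : Lin)} S

/-- `G` is the fundamental group of a closed orientable hyperbolic 3-manifold of volume `v` -/
def IsClosedHyperbolic (G : Type) [Group G] (v : ℝ) : Prop :=
  ∃ Γ' : Subgroup Lin, IsHyperbolicGroup Γ' ∧ IsCocompact Γ' ∧ HasVolume Γ' v ∧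
    Nonempty (G ≃* Γ')

/-- The Dehn filling of `ℍ³/Γ` along the slopes `S` is hyperbolic with volume `v`. The fundamental
group of the Dehn filling is `Γ` modulo the normal subgroup generated by the slopes, and a
closed orientable 3-manifold is hyperbolic of volume `v` iff its fundamental group is
the fundamental group of a closed orientable hyperbolic 3-manifold of volume `v`. -/
def FillingHasVolume (Γ : Subgroup Lin) (S : Set Γ) (v : ℝ) : Prop :=
  IsClosedHyperbolic (Γ ⧸ Subgroup.normalClosure S) v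

/-- The problem's statement is false: there are a complete orientable hyperbolic 3-manifold
`ℍ³/Γ` of finite volume and a number `v` such that infinitely many tuples of slopes have a
hyperbolic Dehn filling of volume `v`. -/
theorem result : ∃ Γ : Subgroup Lin, IsHyperbolicGroup Γ ∧ (∃ V : ℝ, HasVolume Γ V) ∧
    ∃ v : ℝ, {S : Set Γ | IsSlopeSystem Γ S ∧ FillingHasVolume Γ S v}.Infinite := by
  have hyp : ∀ Γ : Subgroup EqVol.Lin, EqVol.IsHyperbolicGroup Γ → IsHyperbolicGroup Γ := by
    intro Γ h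
    refine ⟨fun g hg => ⟨h.isometry g hg, h.sheet g hg, h.orientation g hg⟩, h.discrete, ?_⟩
    intro g n hn hgn
    apply Subtype.ext
    apply h.torsionFree g.1 g.2 n hn
    have := congrArg Subtype.val hgn
    simpa using this
  have par : ∀ g : Lin, EqVol.IsParabolic g → IsParabolic g := by
    intro g hg
    refine ⟨hg.1, fun x => ?_⟩
    have h := congrArg (fun f : E4 →ₗ[ℝ] E4 => f x) hg.2
    simp only [pow_succ, pow_zero, one_mul, Module.End.mul_apply, LinearMap.sub_apply,
      Module.End.one_apply, LinearMap.zero_apply, LinearEquiv.coe_coe, map_sub] at h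
    have h2 : g (g (g x)) - (3 : ℝ) • g (g x) + (3 : ℝ) • g x - x
        = g (g (g x)) - g (g x) - (g (g x) - g x) - (g (g x) - g x - (g x - x)) := by
      module
    rw [h2]
    exact h
  have par' : ∀ g : Lin, IsParabolic g → EqVol.IsParabolic g := by
    intro g hg
    refine ⟨hg.1, LinearMap.ext fun x => ?_⟩
    have h := hg.2 x
    simp only [pow_succ, pow_zero, one_mul, Module.End.mul_apply, LinearMap.sub_apply,
      Module.End.one_apply, LinearMap.zero_apply, LinearEquiv.coe_coe, map_sub]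
    have h2 : g (g (g x)) - (3 : ℝ) • g (g x) + (3 : ℝ) • g x - x
        = g (g (g x)) - g (g x) - (g (g x) - g x) - (g (g x) - g x - (g x - x)) := by
      module
    rw [← h2]
    exact h
  obtain ⟨Γ, hΓ, ⟨V, hV⟩, v, hv⟩ := EqVol.final
  refine ⟨Γ, hyp Γ hΓ, ⟨V, hV⟩, v, hv.mono ?_⟩
  rintro S ⟨hS, Γ', h1, h2, h3, h4⟩
  refine ⟨⟨fun σ hσ => par _ (hS.parabolic σ hσ), hS.primitive, hS.inv, hS.conj, ?_, ?_⟩,
    Γ', hyp Γ' h1, h2, h3, h4⟩
  · intro γ hγ
    exact hS.exists_slope γ (par' _ hγ)
  · exact hS.unique_slope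

end Pool.Agent.Results.MP_d283d5_gt.InfinitelyManyFillings
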